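import Pool.Agent.Y578.PW.Poly

/-!
# Dense pinwheel scheduling with large periods on several channels is strongly NP-hard

`ChannelSchedulable h l`: the tasks with the periods `l` can be scheduled on `h` channels, one task
per channel and time slot, such that every block of `b i` consecutive time slots contains an
execution of task `i`; for `h = 1` this is pinwheel scheduling.  The density of an instance is
`∑ 1 / b_i`; it is at most `h` for every instance that is schedulable.

For every number `h ≥ 1` of channels, every `K`, every `ε > 0` and every `θ < 1`, the problem is
NP-hard (even strongly) when it is restricted to the instances with `n` tasks, all periods `≥ K`,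
and density in the interval `(h - ε / n ^ θ, h)`.

The reduction extends the one of the starting result (exact periods and fillers) as follows.
* The primes of the construction are larger than `K`, and the period `f` of the fillers is a large
  power, so that the slack `h - density ≤ (number of tasks that are not fillers) / f` is less than
  `ε / n ^ θ`.
* `(h - 1) * q` tasks of period `q` are added, where `q` is one more prime.  In a long block without
  slack, every residue class modulo `q` contains at most `h - 1` of these tasks, because some task
  of the formula, its period being coprime to `q`, meets every residue class; hence every class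
  contains exactly `h - 1` of them, and the remaining tasks are scheduled as on one channel.
-/

namespace Pool.Agent.Results.MP_84f0af_lc.DenseManyChannels

open Pool.Agent.NPC Pool.Agent.H741R2.PW Pool.Agent.Y578.PW

/-- **Pinwheel scheduling on `h` channels is strongly NP-hard for every `h ≥ 1`, even for instances
all of whose periods are at least `K` and whose density is in `(h - ε / n ^ θ, h)`, `n` being the
number of tasks** (for every `K`, `ε > 0` and `0 ≤ θ < 1`); first with periods in binary, then in
unary.  The third part says that for `h = 1` this is the pinwheel scheduling problem; the last part,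
that in particular pinwheel scheduling is NP-hard and strongly NP-hard. -/
theorem result :
    (∀ (h K : ℕ) (ε θ : ℝ), 1 ≤ h → 0 < ε → 0 ≤ θ → θ < 1 →
      NPHardOn (Dense h K ε θ) (ChannelSchedulable h)) ∧
    (∀ (h K : ℕ) (ε θ : ℝ), 1 ≤ h → 0 < ε → 0 ≤ θ → θ < 1 →
      NPHardOn (fun l : List (List Unit) => Dense h K ε θ (l.map List.length))
        (fun l => ChannelSchedulable h (l.map List.length))) ∧
    (∀ l, ChannelSchedulable 1 l ↔ Schedulable l) ∧
    (NPHardP Pinwheel ∧ NPHardP PinwheelUnary) := by
  have h1 : ∀ l : List ℕ, Dense 1 0 1 0 l → (Pinwheel l ↔ ChannelSchedulable 1 l) := by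
    intro l hl
    rw [channelSchedulable_one]
    exact ⟨fun h => h.2.2, fun h => ⟨hl.1, fun b hb => (hl.2.1 b hb).1, h⟩⟩
  refine ⟨fun h K ε θ a1 a2 a3 a4 => toNPHardOn (hardPr_dense h K ε θ a1 a2 a3 a4),
    fun h K ε θ a1 a2 a3 a4 => toNPHardOn (hardPr_denseU h K ε θ a1 a2 a3 a4),
    channelSchedulable_one, ?_, ?_⟩
  · exact nPHardP_of_agree
      (toNPHardOn (hardPr_dense 1 0 1 0 le_rfl one_pos le_rfl one_pos)) h1
  · exact nPHardP_of_agree
      (toNPHardOn (hardPr_denseU 1 0 1 0 le_rfl one_pos le_rfl one_pos)) fun l hl => h1 _ hl

end Pool.Agent.Results.MP_84f0af_lc.DenseManyChannels
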